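import Mathlib

/-! Pairwise heavily intersecting subfamilies of dense set systems. -/

namespace Pool.Agent.H.MP_cecf76_co
open Finset Real

/-- dependent random choice -/
lemma drc {n m : ℕ} (A : Fin m → Finset (Fin n)) {c ε : ℝ} (c0 : 0 ≤ c) (e0 : 0 ≤ ε)
    (h : ∀ k, c * n < (A k).card) (J : Finset (Fin m)) (hJ : J.Nonempty) (j : ℕ) :
    ∃ I ⊆ J, (∀ k ∈ I, ∀ l ∈ I, k ≠ l → ε * n < (A k ∩ A l).card) ∧
      J.card * c ^ j - J.card ^ 2 * ε ^ j ≤ I.card := by
  classical
  have n0 : (0 : ℝ) < n := by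
    obtain ⟨k, -⟩ := hJ
    have h1 : (0 : ℝ) < (A k).card := lt_of_le_of_lt (by positivity) (h k)
    have h2 := card_le_univ (A k)
    rw [Fintype.card_fin] at h2
    exact h1.trans_le (by exact_mod_cast h2)
  have s : ∀ {β : Type} (T : Finset β) (B : β → Finset (Fin n)),
      ∑ x : Fin j → Fin n, ((T.filter fun k => ∀ i, x i ∈ B k).card : ℝ) =
        ∑ k ∈ T, ((B k).card : ℝ) ^ j := fun T B => by
    simp only [card_filter, Nat.cast_sum]
    rw [sum_comm]
    refine sum_congr rfl fun k _ => ?_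
    rw [← Nat.cast_sum, ← card_filter, show (univ.filter fun x : Fin j → Fin n => ∀ i, x i ∈ B k) =
      Fintype.piFinset fun _ => B k from by ext x; simp]
    simp
  set P := (J ×ˢ J).filter fun p => ((A p.1 ∩ A p.2).card : ℝ) ≤ ε * n ∧ p.1 ≠ p.2
  obtain ⟨x, -, hx⟩ : ∃ x ∈ (univ : Finset (Fin j → Fin n)),
      J.card * c ^ j - J.card ^ 2 * ε ^ j ≤ ((J.filter fun k => ∀ i, x i ∈ A k).card : ℝ) -
        (P.filter fun p => ∀ i, x i ∈ A p.1 ∩ A p.2).card := by
    have : Nonempty (Fin n) := ⟨⟨0, by exact_mod_cast n0⟩⟩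
    refine exists_le_of_sum_le univ_nonempty ?_
    rw [sum_const, sum_sub_distrib, s, s, card_univ, Fintype.card_fun, Fintype.card_fin,
      Fintype.card_fin, nsmul_eq_mul]
    have h1 := card_nsmul_le_sum J (fun k => ((A k).card : ℝ) ^ j) ((c * n) ^ j) fun k _ =>
      pow_le_pow_left₀ (by positivity) (h k).le _
    have h2 := sum_le_card_nsmul P (fun p => ((A p.1 ∩ A p.2).card : ℝ) ^ j) ((ε * n) ^ j)
      fun p hp => pow_le_pow_left₀ (by positivity) (mem_filter.mp hp).2.1 _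
    have h3 : (P.card : ℝ) ≤ J.card ^ 2 := by
      have := card_filter_le (J ×ˢ J) fun p => ((A p.1 ∩ A p.2).card : ℝ) ≤ ε * n ∧ p.1 ≠ p.2
      rw [card_product, ← sq] at this
      exact_mod_cast this
    have h4 := mul_le_mul_of_nonneg_right h3 (show 0 ≤ (ε * n) ^ j by positivity)
    rw [nsmul_eq_mul, mul_pow] at h1 h2
    rw [mul_pow] at h4
    push_cast
    linarith
  set V := J.filter fun k => ∀ i, x i ∈ A k
  set E := P.filter fun p => ∀ i, x i ∈ A p.1 ∩ A p.2
  refine ⟨V \ E.image Prod.fst, sdiff_subset.trans (filter_subset _ _), fun k hk l hl e => ?_,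
    hx.trans ?_⟩
  · by_contra b
    simp only [V, mem_sdiff, mem_filter] at hk hl
    exact hk.2 (mem_image.mpr ⟨(k, l), mem_filter.mpr ⟨mem_filter.mpr ⟨mk_mem_product hk.1.1 hl.1.1,
      not_lt.mp b, e⟩, fun i => mem_inter.mpr ⟨hk.1.2 i, hl.1.2 i⟩⟩, rfl⟩)
  · have h1 := le_card_sdiff (E.image Prod.fst) V
    have h2 := card_image_le (s := E) (f := Prod.fst)
    rw [sub_le_iff_le_add]
    exact_mod_cast (show V.card ≤ _ + E.card by omega)

lemma big {n m : ℕ} (A : Fin m → Finset (Fin n)) {c ε δ : ℝ} (c0 : 0 < c) (c1 : c < 1)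
    (e0 : 0 ≤ ε) (d0 : 0 < δ) (e1 : ε ≤ c ^ (1 + 1 / δ)) (h : ∀ k, c * n < (A k).card)
    (J : Finset (Fin m)) : ∃ I ⊆ J, (∀ k ∈ I, ∀ l ∈ I, k ≠ l → ε * n < (A k ∩ A l).card) ∧
      c / 2 * (2 * m) ^ (-δ) * J.card ≤ I.card := by
  rcases J.eq_empty_or_nonempty with rfl | hJ
  · exact ⟨∅, by simp⟩
  have m1 : (J.card : ℝ) ≤ m := by
    have := card_le_univ J
    rw [Fintype.card_fin] at this
    exact_mod_cast this
  have m2 : (1 : ℝ) ≤ J.card := by exact_mod_cast hJ.card_pos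
  have u0 : 0 < c ^ (1 / δ) := by positivity
  obtain ⟨j, j1, j2⟩ := exists_nat_pow_near_of_lt_one (x := (2 * m : ℝ)⁻¹) (inv_pos.mpr (by linarith))
    (inv_le_one_of_one_le₀ (by linarith)) u0 (rpow_lt_one c0.le c1 (by positivity))
  obtain ⟨I, s, h1, h2⟩ := drc A c0.le e0 h J hJ (j + 1)
  refine ⟨I, s, h1, le_trans ?_ h2⟩
  have k1 : (2 * m : ℝ) ^ (-δ) ≤ c ^ j := by
    have := rpow_le_rpow (by positivity) j2 d0.le
    rwa [inv_rpow (by positivity), ← rpow_neg (by positivity), ← rpow_natCast, ← rpow_mul u0.le,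
      ← rpow_mul c0.le, show 1 / δ * (j * δ) = j by field_simp, rpow_natCast] at this
  have k2 : ε ^ (j + 1) ≤ c ^ (j + 1) * (2 * m : ℝ)⁻¹ := by
    rw [rpow_add c0, rpow_one] at e1
    refine (pow_le_pow_left₀ e0 e1 _).trans ?_
    rw [mul_pow]
    gcongr
  have k3 : (J.card : ℝ) * (2 * m : ℝ)⁻¹ ≤ 1 / 2 := by
    rw [← div_eq_mul_inv, div_le_iff₀ (by linarith)]; linarith
  have k4 : (J.card : ℝ) * ε ^ (j + 1) ≤ c ^ (j + 1) / 2 := by
    have : 0 < c ^ (j + 1) := by positivity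
    nlinarith
  rw [pow_succ c] at k4 ⊢
  nlinarith [mul_le_mul_of_nonneg_left k1 c0.le]

lemma greedy {α : Type} (R : α → α → Prop) {η : ℝ} (e1 : η ≤ 1)
    (h : ∀ J : Finset α, ∃ I ⊆ J, (∀ k ∈ I, ∀ l ∈ I, k ≠ l → R k l) ∧ η * J.card ≤ I.card) (k : ℕ) :
    ∀ J : Finset α, J.card * (1 - η) ^ k < 1 → ∃ f : α → ℕ, ∀ v ∈ J, f v < k ∧
      ∀ w ∈ J, v ≠ w → f v = f w → R v w := by
  classical
  induction k with
  | zero =>
    intro J hJ
    rw [pow_zero, mul_one, Nat.cast_lt_one, card_eq_zero] at hJ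
    simp [hJ]
  | succ k ih =>
    intro J hJ
    obtain ⟨I, s, h1, h2⟩ := h J
    obtain ⟨f, hf⟩ := ih (J \ I) (lt_of_le_of_lt (by
      rw [pow_succ', ← mul_assoc, cast_card_sdiff s]
      exact mul_le_mul_of_nonneg_right (by linarith) (pow_nonneg (by linarith) _)) hJ)
    refine ⟨fun v => if v ∈ I then k else f v, fun v hv => ⟨?_, fun w hw n e => ?_⟩⟩
    · dsimp only
      split_ifs with a
      · omega
      · exact (hf v (mem_sdiff.mpr ⟨hv, a⟩)).1.trans (Nat.lt_succ_self _)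
    · by_cases a : v ∈ I <;> by_cases b : w ∈ I <;> simp only [a, b, if_true, if_false] at e
      · exact h1 v a w b n
      · exact absurd e (hf w (mem_sdiff.mpr ⟨hw, b⟩)).1.ne'
      · exact absurd e (hf v (mem_sdiff.mpr ⟨hv, a⟩)).1.ne
      · exact (hf v (mem_sdiff.mpr ⟨hv, a⟩)).2 w (mem_sdiff.mpr ⟨hw, b⟩) n e

/-- exponential moments of Lipschitz functions on the cube -/
lemma mgf {α : Type} [DecidableEq α] (T : Finset α) : ∀ f : Finset α → ℝ,
    (∀ a B, |f B - f (insert a B)| ≤ 1) → ∃ M, ∀ t : ℝ, ∑ B ∈ T.powerset, exp (t * f B) ≤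
      2 ^ T.card * exp (t ^ 2 * T.card / 8 + t * M) := by
  induction T using Finset.induction_on with
  | empty => exact fun f _ => ⟨f ∅, fun t => by simp⟩
  | insert a T ha ih =>
    intro f hf
    obtain ⟨M, hM⟩ := ih (fun B => (f B + f (insert a B)) / 2) fun b B => by
      have h1 := abs_le.mp (hf b B)
      have h2 := abs_le.mp (hf b (insert a B))
      rw [insert_comm b a] at h2
      exact abs_le.mpr ⟨by linarith [h1.1, h2.1], by linarith [h1.2, h2.2]⟩
    refine ⟨M, fun t => ?_⟩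
    rw [sum_powerset_insert ha, ← sum_add_distrib, card_insert_of_notMem ha]
    refine (sum_le_sum (g := fun B => 2 * exp (t ^ 2 / 8) * exp (t * ((f B + f (insert a B)) / 2)))
      fun B _ => ?_).trans ?_
    · have h1 := cosh_le_exp_half_sq (t * (f B - f (insert a B)) / 2)
      have h2 : exp ((t * (f B - f (insert a B)) / 2) ^ 2 / 2) ≤ exp (t ^ 2 / 8) := by
        have := sq_le_one_iff_abs_le_one _ |>.mpr (hf a B)
        exact exp_le_exp.mpr (by nlinarith [sq_nonneg t])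
      have h3 := mul_le_mul_of_nonneg_right (h1.trans h2)
        (exp_pos (t * ((f B + f (insert a B)) / 2))).le
      rw [cosh_eq, div_mul_eq_mul_div, add_mul, ← exp_add, ← exp_add,
        show t * (f B - f (insert a B)) / 2 + t * ((f B + f (insert a B)) / 2) = t * f B by ring,
        show -(t * (f B - f (insert a B)) / 2) + t * ((f B + f (insert a B)) / 2) =
          t * f (insert a B) by ring] at h3
      linarith
    · rw [← mul_sum]
      refine (mul_le_mul_of_nonneg_left (hM t) (by positivity)).trans (le_of_eq ?_)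
      rw [show t ^ 2 * ((T.card + 1 : ℕ) : ℝ) / 8 + t * M =
        t ^ 2 / 8 + (t ^ 2 * T.card / 8 + t * M) by push_cast; ring, exp_add (t ^ 2 / 8), pow_succ (2 : ℝ)]
      ac_rfl

lemma inter {N : ℕ} (F : Finset (Finset (Fin N))) {τ : ℝ} (t0 : 0 ≤ τ)
    (h : ∀ A ∈ F, ∀ B ∈ F, τ * N ≤ (A ∩ B).card) : F.card ≤ 2 ^ N * exp (-(τ ^ 2 * N / 2)) := by
  rcases F.eq_empty_or_nonempty with rfl | hF
  · simp only [card_empty, Nat.cast_zero]; positivity
  obtain ⟨M, hM⟩ := mgf univ (fun B => F.inf' hF fun A => ((A \ B).card : ℝ)) fun a B => by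
    obtain ⟨A, hA, e⟩ := exists_mem_eq_inf' hF fun A => ((A \ B).card : ℝ)
    obtain ⟨C, hC, e'⟩ := exists_mem_eq_inf' hF fun A => ((A \ insert a B).card : ℝ)
    have h1 := inf'_le (fun A => ((A \ B).card : ℝ)) hC
    have h2 := inf'_le (fun A => ((A \ insert a B).card : ℝ)) hA
    have h3 : ((A \ insert a B).card : ℝ) ≤ (A \ B).card := by
      exact_mod_cast card_le_card (sdiff_subset_sdiff subset_rfl (subset_insert _ _))
    have h4 : ((C \ B).card : ℝ) ≤ (C \ insert a B).card + 1 := by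
      rw [sdiff_insert]
      exact_mod_cast Nat.sub_le_iff_le_add.mp pred_card_le_card_erase
    exact abs_le.mpr ⟨by linarith, by linarith⟩
  have h1 := hM (-(2 * τ))
  have h2 := hM (2 * τ)
  rw [powerset_univ, card_fin] at h1 h2
  have h3 : F.card * (1 : ℝ) ≤ _ := le_trans (by
    rw [← nsmul_eq_mul]
    refine (card_nsmul_le_sum F _ _ fun B hB => one_le_exp ?_).trans
      (sum_le_sum_of_subset_of_nonneg (subset_univ _) fun _ _ _ => (exp_pos _).le)
    have := inf'_le (fun A => ((A \ B).card : ℝ)) hB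
    simp only [sdiff_self, bot_eq_empty, card_empty, Nat.cast_zero] at this
    nlinarith) h1
  have h4 : F.card * exp (2 * τ * (τ * N)) ≤ _ := le_trans (by
    rw [← nsmul_eq_mul, ← card_image_of_injective F compl_injective]
    refine (card_nsmul_le_sum _ _ _ fun B hB => exp_le_exp.mpr ?_).trans
      (sum_le_sum_of_subset_of_nonneg (subset_univ _) fun _ _ _ => (exp_pos _).le)
    obtain ⟨C, hC, rfl⟩ := mem_image.mp hB
    refine mul_le_mul_of_nonneg_left ((le_inf'_iff _ _).mpr fun A hA => ?_) (by positivity)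
    rw [sdiff_eq_inter_compl, compl_compl]
    exact h A hA C hC) h2
  have h5 := mul_le_mul h3 h4 (by positivity) (by positivity)
  rw [mul_mul_mul_comm ((2 : ℝ) ^ N), ← exp_add, show (-(2 * τ)) ^ 2 * N / 8 + -(2 * τ) * M +
    ((2 * τ) ^ 2 * N / 8 + 2 * τ * M) = -(τ ^ 2 * N / 2) + -(τ ^ 2 * N / 2) + 2 * τ * (τ * N) by ring,
    exp_add, exp_add] at h5
  refine abs_le_of_sq_le_sq' (le_of_mul_le_mul_right ?_ (exp_pos (2 * τ * (τ * N))))
    (by positivity) |>.2
  linarith

lemma half (N : ℕ) : 2 ^ N ≤ 2 * (univ.filter fun B : Finset (Fin N) => N ≤ 2 * B.card).card := by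
  set H := univ.filter fun B : Finset (Fin N) => N ≤ 2 * B.card
  have : (univ : Finset (Finset (Fin N))) ⊆ H ∪ H.image compl := fun B _ => by
    by_cases k : N ≤ 2 * B.card
    · simp [H, k]
    · exact mem_union_right _ (mem_image.mpr ⟨Bᶜ, by simp [H, card_compl]; omega, compl_compl B⟩)
  have h1 := (card_le_card this).trans (card_union_le _ _)
  have h2 := card_image_le (s := H) (f := compl)
  simp only [card_univ, Fintype.card_finset, Fintype.card_fin] at h1
  omega

lemma blow {n N : ℕ} {ε : ℝ} (n0 : 0 < n) (e1 : ε ≤ 1) (hN : (N : ℝ) ≤ ε * n / 2) :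
    ∃ φ : Finset (Fin N) → Finset (Fin n), φ.Injective ∧ (∀ B, N ≤ 2 * B.card → n < 2 * (φ B).card) ∧
      ∀ B C, ε * n ≤ (φ B ∩ φ C).card → ε / 2 * N ≤ (B ∩ C).card := by
  rcases Nat.eq_zero_or_pos N with rfl | N0
  · exact ⟨fun _ => univ, fun _ _ _ => Subsingleton.elim _ _, fun _ _ => by simp [n0], by simp⟩
  obtain ⟨q, r, e, r1, r2⟩ : ∃ q r, n = N * q + r ∧ 0 < r ∧ r ≤ N :=
    ⟨(n - 1) / N, (n - 1) % N + 1, by have := Nat.div_add_mod (n - 1) N; omega, by omega,
      Nat.mod_lt _ N0⟩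
  have N1 : (0 : ℝ) < N := by exact_mod_cast N0
  have n1 : (0 : ℝ) < n := by exact_mod_cast n0
  have q0 : 0 < q := Nat.pos_of_ne_zero (by
    rintro rfl
    have : (n : ℝ) ≤ N := by exact_mod_cast (show n ≤ N by omega)
    nlinarith)
  let g : (Fin N × Fin q) ⊕ Fin r ≃ Fin n := Fintype.equivFinOfCardEq (by simp [e])
  let φ : Finset (Fin N) → Finset (Fin n) := fun B => ((B ×ˢ univ).disjSum univ).map g.toEmbedding
  have c : ∀ B, (φ B).card = B.card * q + r := fun B => by simp [φ]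
  have i : ∀ B C, φ B ∩ φ C = φ (B ∩ C) := fun B C => by
    ext x
    obtain ⟨y, rfl⟩ := g.surjective x
    cases y <;> simp [φ]
  refine ⟨φ, fun B C h => ?_, fun B h => ?_, fun B C h => ?_⟩
  · ext x
    simpa [φ] using Finset.ext_iff.mp h (g (Sum.inl (x, ⟨0, q0⟩)))
  · rw [c]; nlinarith
  · rw [i, c] at h
    have q1 : (0 : ℝ) < q := by exact_mod_cast q0
    have h1 : (r : ℝ) ≤ N := by exact_mod_cast r2
    have h2 : (N : ℝ) * q ≤ n := by exact_mod_cast (show N * q ≤ n by omega)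
    have e0 : 0 < ε := by nlinarith
    push_cast at h
    refine le_of_mul_le_mul_right ?_ q1
    nlinarith

/-- the hard core family -/
lemma core {n m : ℕ} {ε : ℝ} (n0 : 0 < n) (m0 : 0 < m) (e0 : 0 < ε) (e1 : ε ≤ 1) (hm : m ≤ 2 ^ n) :
    ∃ H : Finset (Finset (Fin n)), H.Nonempty ∧ H.card ≤ m ∧ (∀ A ∈ H, n < 2 * A.card) ∧ ∀ F ⊆ H,
      (∀ A ∈ F, ∀ B ∈ F, A ≠ B → ε * n ≤ (A ∩ B).card) →
        F.card * (m : ℝ) ^ (ε ^ 3 / 16) ≤ 3 * H.card := by
  set N := min (Nat.log 2 m) ⌊ε * n / 2⌋₊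
  obtain ⟨φ, f1, f2, f3⟩ := blow (N := N) n0 e1 (le_trans (by exact_mod_cast min_le_right _ _)
    (Nat.floor_le (by positivity)))
  have h0 := half N
  set H := univ.filter fun B : Finset (Fin N) => N ≤ 2 * B.card
  have h1 : H.card ≤ 2 ^ N := by simpa using card_le_univ H
  have m1 : (1 : ℝ) ≤ m := by exact_mod_cast m0
  have l0 := log_nonneg m1
  have l2 : log 2 ≤ 1 := by linarith [log_two_lt_d9]
  have hN : ε / 2 * log m ≤ N + 1 := by
    rcases min_choice (Nat.log 2 m) ⌊ε * n / 2⌋₊ with e | e <;> rw [show N = _ from e]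
    · have : (m : ℝ) ≤ 2 ^ (Nat.log 2 m + 1) := by
        exact_mod_cast (Nat.lt_pow_succ_log_self (by norm_num) m).le
      have := log_le_log (by linarith) this
      rw [log_pow] at this
      push_cast at this
      nlinarith
    · have : (m : ℝ) ≤ 2 ^ n := by exact_mod_cast hm
      have := log_le_log (by linarith) this
      rw [log_pow] at this
      have k := Nat.lt_floor_add_one (ε * n / 2)
      have : log m ≤ n := by nlinarith
      nlinarith
  refine ⟨H.image φ, image_nonempty.mpr ⟨univ, by simp [H]; omega⟩, ?_, ?_, fun F s h => ?_⟩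
  · exact card_image_le.trans (h1.trans ((Nat.pow_le_pow_right (by norm_num) (min_le_left _ _)).trans
      (Nat.pow_log_le_self 2 m0.ne')))
  · exact forall_mem_image.mpr fun B hB => f2 B (mem_filter.mp hB).2
  obtain ⟨G, s', rfl⟩ := subset_image_iff.mp s
  have := inter G (τ := ε / 2) (by positivity) fun A hA B hB => by
    by_cases e : A = B
    · have : (N : ℝ) ≤ 2 * A.card := by exact_mod_cast (mem_filter.mp (s' hA)).2
      rw [← e, inter_self]
      nlinarith
    · exact f3 A B (h _ (mem_image_of_mem _ hA) _ (mem_image_of_mem _ hB) (f1.ne e))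
  rw [card_image_of_injective _ f1, card_image_of_injective _ f1, rpow_def_of_pos (by linarith)]
  have h2 : (2 : ℝ) ^ N ≤ 2 * H.card := by exact_mod_cast h0
  have h3 : exp (-((ε / 2) ^ 2 * N / 2)) * exp (log m * (ε ^ 3 / 16)) ≤ 3 / 2 := by
    rw [← exp_add]
    refine (exp_le_exp.mpr (show _ ≤ 1 / 8 by
      nlinarith [mul_le_mul_of_nonneg_left hN (sq_nonneg ε)])).trans ?_
    have := exp_bound_div_one_sub_of_interval (x := 1 / 8) (by norm_num) (by norm_num)
    linarith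
  have h4 := mul_le_mul_of_nonneg_right this (exp_pos (log m * (ε ^ 3 / 16))).le
  have : (0 : ℝ) < 2 ^ N := by positivity
  nlinarith

end Pool.Agent.H.MP_cecf76_co
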